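import Pool.Agent.H77.RZ.Stmts

/-!
# RZ, module PR2: the density of the family is bounded below
-/

set_option autoImplicit false

namespace Pool.RZ

open Polynomial Matrix Pool.AVR Pool.AVS

namespace H87PR2

variable {F : Type} [Field F] [Finite F]

lemma exists_cube : ∃ c : F, ∀ x : F, x ^ 3 - x - c ≠ 0 := by
  have h1 : ¬ Function.Injective (fun x : F => x ^ 3 - x) := by
    intro h
    have := h (a₁ := 0) (a₂ := 1) (by simp)
    exact zero_ne_one this
  have h2 : ¬ Function.Surjective (fun x : F => x ^ 3 - x) := by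
    intro h
    exact h1 (Finite.injective_iff_surjective.mpr h)
  rw [Function.Surjective] at h2
  push Not at h2
  obtain ⟨c, hc⟩ := h2
  exact ⟨c, fun x hx => hc x (by simpa using sub_eq_zero.mp hx)⟩

lemma exists_sq (h : (2 : F) ≠ 0) : ∃ c : F, ∀ x : F, x ^ 2 - c ≠ 0 := by
  have h1 : ¬ Function.Injective (fun x : F => x ^ 2) := by
    intro hi
    have h3 := hi (a₁ := 1) (a₂ := -1) (by simp)
    apply h
    linear_combination h3
  have h2 : ¬ Function.Surjective (fun x : F => x ^ 2) := by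
    intro hs
    exact h1 (Finite.injective_iff_surjective.mpr hs)
  rw [Function.Surjective] at h2
  push Not at h2
  obtain ⟨c, hc⟩ := h2
  exact ⟨c, fun x hx => hc x (by simpa using sub_eq_zero.mp hx)⟩

lemma d12_pos (h : (2 : F) ≠ 0) : 0 < d12 F := by
  obtain ⟨c, hc⟩ := exists_sq (F := F) h
  have h1 : 0 < {t : F × F × F | T12 t}.ncard := by
    rw [Set.ncard_pos (Set.toFinite _)]
    refine ⟨(0 - 0, -c - 0 * 0, -(0 * -c)), 0, 0, -c, ?_, rfl⟩
    intro x hx
    apply hc x
    linear_combination hx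
  have h2 : 0 < Nat.card F := Nat.card_pos
  rw [d12]
  have h3 : (0 : ℝ) < (Nat.card F : ℝ) := by exact_mod_cast h2
  have h4 : (0 : ℝ) < ({t : F × F × F | T12 t}.ncard : ℝ) := by exact_mod_cast h1
  positivity

lemma d3_pos : 0 < d3 F := by
  obtain ⟨c, hc⟩ := exists_cube (F := F)
  have h1 : 0 < {t : F × F × F | NR t}.ncard := by
    rw [Set.ncard_pos (Set.toFinite _)]
    refine ⟨(0, -1, -c), ?_⟩
    intro x hx
    apply hc x
    linear_combination hx
  have h2 : 0 < Nat.card F := Nat.card_pos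
  rw [d3]
  have h3 : (0 : ℝ) < (Nat.card F : ℝ) := by exact_mod_cast h2
  have h4 : (0 : ℝ) < ({t : F × F × F | NR t}.ncard : ℝ) := by exact_mod_cast h1
  positivity

lemma dens_le_one (R : Type) [CommRing R] [Finite R] : dens R ≤ 1 := by
  rw [dens]
  have h2 : 0 < Nat.card R := Nat.card_pos
  have h3 : (0 : ℝ) < (Nat.card R : ℝ) := by exact_mod_cast h2
  rw [div_le_one (by positivity)]
  have h4 : {t : R × R × R | disc t.1 t.2.1 t.2.2 ≠ 0}.ncard ≤ Nat.card (R × R × R) :=
    Set.ncard_le_card _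
  have h5 : Nat.card (R × R × R) = Nat.card R ^ 3 := by
    rw [Nat.card_prod, Nat.card_prod]
    ring
  rw [h5] at h4
  exact_mod_cast h4

end H87PR2

open H87PR2 in
theorem pr2_thm (hPRG : PRGStmt) : PR2Stmt := by
  intro F _ _ h2
  obtain ⟨c, hc, h⟩ := hPRG F h2
  refine ⟨d3 F * d12 F ^ 2 * c, ?_, ?_⟩
  · have := d3_pos (F := F)
    have := d12_pos (F := F) h2
    positivity
  intro S hS
  have h3 := d3_pos (F := F)
  have h4 := d12_pos (F := F) h2
  have : Finite (DualNumber F) := inferInstanceAs (Finite (F × F))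
  have h5 := dens_le_one (DualNumber F)
  have h6 := h S hS
  have h7 : 0 ≤ ∏ P ∈ S, dens (AdjoinRoot (P ^ 2)) := by
    apply Finset.prod_nonneg
    intro P _
    rw [dens]
    positivity
  have h8 : c ≤ ∏ P ∈ S, dens (AdjoinRoot (P ^ 2)) := by
    refine h6.trans ?_
    calc dens (DualNumber F) * ∏ P ∈ S, dens (AdjoinRoot (P ^ 2))
        ≤ 1 * ∏ P ∈ S, dens (AdjoinRoot (P ^ 2)) := mul_le_mul_of_nonneg_right h5 h7
      _ = _ := one_mul _
  rw [dd]
  exact mul_le_mul_of_nonneg_left h8 (by positivity)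

end Pool.RZ
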